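import Mathlib

/-!
The standard Sierpinski carpet, quasisymmetric homeomorphisms and conformal dimension.
-/

namespace Pool.Agent.Lib.Carpet

open scoped ENNReal NNReal

/-- The Euclidean plane. -/
abbrev Plane := EuclideanSpace ℝ (Fin 2)

/-- The similarity `p ↦ (p + (i, j)) / 3`, which maps the unit square onto the closed subsquare
of side `1 / 3` in column `i` and row `j`. -/
noncomputable def sub (i j : Fin 3) (p : Plane) : Plane :=
  !₂[(p 0 + ((i : ℕ) : ℝ)) / 3, (p 1 + ((j : ℕ) : ℝ)) / 3]

/-- The `n`-th stage of the construction of the carpet: the closed unit square at stage `0`, and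
at stage `n + 1` the eight copies of stage `n`, scaled by `1 / 3`, in the eight subsquares other
than the middle one. -/
noncomputable def carpetLevel : ℕ → Set Plane
  | 0 => {p | ∀ i, p i ∈ Set.Icc (0 : ℝ) 1}
  | n + 1 => ⋃ (i : Fin 3) (j : Fin 3) (_ : (i, j) ≠ (1, 1)), sub i j '' carpetLevel n

/-- The standard Sierpinski carpet. -/
noncomputable def carpet : Set Plane := ⋂ n, carpetLevel n

/-- A homeomorphism is quasisymmetric if it is `η`-quasisymmetric for a homeomorphism `η` of
`[0, ∞)`. -/
def IsQuasisymmetric {X Y : Type*} [MetricSpace X] [MetricSpace Y] (f : X ≃ₜ Y) : Prop :=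
  ∃ η : ℝ≥0 ≃ₜ ℝ≥0, ∀ (x a b : X) (t : ℝ≥0), nndist x a ≤ t * nndist x b →
    nndist (f x) (f a) ≤ η t * nndist (f x) (f b)

/-- The conformal dimension of a metric space: the infimum of the Hausdorff dimensions of all
metric spaces quasisymmetrically homeomorphic to it. -/
noncomputable def confDim.{u, v} (X : Type u) [MetricSpace X] : ℝ≥0∞ :=
  ⨅ (Y : Type v) (_ : MetricSpace Y) (f : X ≃ₜ Y) (_ : IsQuasisymmetric f),
    dimH (Set.univ : Set Y)

end Pool.Agent.Lib.Carpet
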