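import Mathlib

/-!
The substitution of directed cell visits.

A visit of a square cell is a pair (direction of travel on entry, turn); directions are
`0 = east, 1 = north, 2 = west, 3 = south`, turns are `0 = straight, 1 = left, 2 = right`.
-/

namespace Pool.Agent.Lib.Carpet

/-- The digits of the carpet: positions of the eight subsquares. -/
abbrev Digit := {p : Fin 3 × Fin 3 // p ≠ (1, 1)}

/-- Directed visits of a cell. -/
abbrev Visit := Fin 4 × Fin 3

/-- Direction of travel on exit. -/
def exitDir (v : Visit) : Fin 4 := v.1 + ![0, 1, 3] v.2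

/-- An affine point function `t ↦ (a + c t, b + d t)` with integer coefficients `(a, b, c, d)`. -/
abbrev Aff := ℤ × ℤ × ℤ × ℤ

/-- The point of the exit side in a given direction at position `t` from its left end. -/
def outZ : Fin 4 → Aff := ![(1, 1, 0, -1), (0, 1, 1, 0), (0, 0, 0, 1), (1, 0, -1, 0)]

/-- The point of the entry side for a given direction at position `t` from its left end. -/
def inZ : Fin 4 → Aff := ![(0, 1, 0, -1), (0, 0, 1, 0), (1, 0, 0, 1), (1, 1, -1, 0)]

/-- Translate by a digit. -/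
def shift (d : Digit) (z : Aff) : Aff :=
  ((d.1.1.val : ℤ) + z.1, (d.1.2.val : ℤ) + z.2.1, z.2.2.1, z.2.2.2)

/-- Rescale by three and move the parameter to the `u`-th third. -/
def up (u : Fin 3) (z : Aff) : Aff :=
  (3 * z.1 + u.val * z.2.2.1, 3 * z.2.1 + u.val * z.2.2.2, z.2.2.1, z.2.2.2)

/-- Rotation of a digit by a quarter turn counterclockwise. -/
def rotD (d : Digit) : Digit :=
  ⟨(2 - d.1.2, d.1.1), by
    obtain ⟨⟨x, y⟩, h⟩ := d
    revert h
    revert x y
    decide⟩

/-- The route in the standard frame (entry heading east). -/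
def route0 : Fin 3 → Fin 3 → Fin 2 → List (Digit × Visit) :=
  ![ -- straight
    ![fun _ => [(⟨(0, 2), by decide⟩, (0, 0)), (⟨(1, 2), by decide⟩, (0, 0)),
        (⟨(2, 2), by decide⟩, (0, 0))],
      ![[(⟨(0, 1), by decide⟩, (0, 1)), (⟨(0, 2), by decide⟩, (1, 2)),
          (⟨(1, 2), by decide⟩, (0, 0)), (⟨(2, 2), by decide⟩, (0, 2)),
          (⟨(2, 1), by decide⟩, (3, 1))],
        [(⟨(0, 1), by decide⟩, (0, 2)), (⟨(0, 0), by decide⟩, (3, 1)),
          (⟨(1, 0), by decide⟩, (0, 0)), (⟨(2, 0), by decide⟩, (0, 1)),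
          (⟨(2, 1), by decide⟩, (1, 2))]],
      fun _ => [(⟨(0, 0), by decide⟩, (0, 0)), (⟨(1, 0), by decide⟩, (0, 0)),
        (⟨(2, 0), by decide⟩, (0, 0))]],
    -- left turn
    ![fun _ => [(⟨(0, 2), by decide⟩, (0, 1))],
      fun _ => [(⟨(0, 1), by decide⟩, (0, 1)), (⟨(0, 2), by decide⟩, (1, 2)),
        (⟨(1, 2), by decide⟩, (0, 1))],
      fun _ => [(⟨(0, 0), by decide⟩, (0, 0)), (⟨(1, 0), by decide⟩, (0, 0)),
        (⟨(2, 0), by decide⟩, (0, 1)), (⟨(2, 1), by decide⟩, (1, 0)),
        (⟨(2, 2), by decide⟩, (1, 0))]],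
    -- right turn
    ![fun _ => [(⟨(0, 2), by decide⟩, (0, 0)), (⟨(1, 2), by decide⟩, (0, 0)),
        (⟨(2, 2), by decide⟩, (0, 2)), (⟨(2, 1), by decide⟩, (3, 0)),
        (⟨(2, 0), by decide⟩, (3, 0))],
      fun _ => [(⟨(0, 1), by decide⟩, (0, 2)), (⟨(0, 0), by decide⟩, (3, 1)),
        (⟨(1, 0), by decide⟩, (0, 2))],
      fun _ => [(⟨(0, 0), by decide⟩, (0, 2))]]]

/-- The route for a visit, a third of the entry side, and a coin. -/
def route (v : Visit) (u : Fin 3) (s : Fin 2) : List (Digit × Visit) :=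
  (route0 v.2 u s).map fun x => (rotD^[v.1.val] x.1, (x.2.1 + v.1, x.2.2))

/-- A list of visits of subcells is a chain from one point to another. -/
def chainOK : Aff → List (Digit × Visit) → Aff → Bool
  | z, [], z' => decide (z = z')
  | z, x :: l, z' => decide (z = shift x.1 (inZ x.2.1)) &&
      chainOK (shift x.1 (outZ (exitDir x.2))) l z'

theorem route_ok : ∀ (v : Visit) (u : Fin 3) (s : Fin 2),
    chainOK (up u (inZ v.1)) (route v u s) (up u (outZ (exitDir v))) = true := by
  decide

/-- Weights of visits: `5` for a straight one and `4` for a turn. -/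
def wt (v : Visit) : ℕ := if v.2 = 0 then 5 else 4

/-- Total weight which the six routes of a visit put on the subcell `d`. -/
def load (v : Visit) (d : Digit) : ℕ :=
  ∑ u : Fin 3, ∑ s : Fin 2, (((route v u s).filter (fun x => x.1 = d)).map fun x => wt x.2).sum

theorem load_straight : ∀ a : Fin 4,
    (Finset.univ : Finset Digit).val.map (load (a, 0)) = {14, 14, 14, 14, 15, 15, 8, 8} := by
  decide

theorem load_turn : ∀ (a : Fin 4) (k : Fin 3), k ≠ 0 →
    (Finset.univ : Finset Digit).val.map (load (a, k)) = {16, 8, 8, 8, 10, 10, 10, 10} := by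
  decide

/-- Every third of every side is a side of a subcell. -/
theorem side_ok : ∀ (a : Fin 4) (u : Fin 3), ∃ d : Digit, up u (outZ a) = shift d (outZ a) := by
  decide

end Pool.Agent.Lib.Carpet
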