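import Mathlib
import Pool.Agent.Lib.Carpet.Defs
import Pool.Agent.Lib.Carpet.Routes

/-!
Cells of the carpet and the points at which they are crossed.
-/

namespace Pool.Agent.Lib.Carpet

open scoped ENNReal NNReal

/-- The similarity of a digit. -/
noncomputable def subD (d : Digit) (p : Plane) : Plane := sub d.1.1 d.1.2 p

/-- Integer coordinates of a cell; the deepest digit is the head of the list. -/
def idx : List Digit → ℕ × ℕ
  | [] => (0, 0)
  | d :: w => (3 * (idx w).1 + d.1.1.val, 3 * (idx w).2 + d.1.2.val)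

/-- The similarity of a word. -/
noncomputable def cell (w : List Digit) (p : Plane) : Plane :=
  !₂[(((idx w).1 : ℝ) + p 0) / 3 ^ w.length, (((idx w).2 : ℝ) + p 1) / 3 ^ w.length]

/-- The affine point function of an integer quadruple. -/
noncomputable def pt (z : Aff) (t : ℝ) : Plane :=
  !₂[(z.1 : ℝ) + z.2.2.1 * t, (z.2.1 : ℝ) + z.2.2.2 * t]

/-- The same, scaled by one third. -/
noncomputable def third (z : Aff) (t : ℝ) : Plane :=
  !₂[((z.1 : ℝ) + z.2.2.1 * t) / 3, ((z.2.1 : ℝ) + z.2.2.2 * t) / 3]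

theorem cell_nil (p : Plane) : cell [] p = p := by
  ext i
  fin_cases i <;> simp [cell, idx]

theorem cell_cons (d : Digit) (w : List Digit) (p : Plane) :
    cell (d :: w) p = cell w (subD d p) := by
  ext i
  fin_cases i
  · simp only [cell, idx, subD, sub, List.length_cons]
    simp
    field_simp
    ring
  · simp only [cell, idx, subD, sub, List.length_cons]
    simp
    field_simp
    ring

theorem subD_pt (d : Digit) (z : Aff) (t : ℝ) : subD d (pt z t) = third (shift d z) t := by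
  ext i
  fin_cases i
  · simp [subD, sub, pt, third, shift]
    ring
  · simp [subD, sub, pt, third, shift]
    ring

theorem pt_third (u : Fin 3) (z : Aff) (t : ℝ) :
    pt z (((u.val : ℝ) + t) / 3) = third (up u z) t := by
  ext i
  fin_cases i
  · simp [pt, third, up]
    ring
  · simp [pt, third, up]
    ring

theorem subD_mem_level {d : Digit} {p : Plane} {n : ℕ} (h : p ∈ carpetLevel n) :
    subD d p ∈ carpetLevel (n + 1) := by
  simp only [carpetLevel, Set.mem_iUnion]
  exact ⟨d.1.1, d.1.2, d.2, p, h, rfl⟩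

theorem mem_level_succ {p : Plane} {n : ℕ} (h : p ∈ carpetLevel (n + 1)) :
    ∃ (d : Digit) (p' : Plane), p' ∈ carpetLevel n ∧ p = subD d p' := by
  simp only [carpetLevel, Set.mem_iUnion] at h
  obtain ⟨i, j, hij, p', hp', rfl⟩ := h
  exact ⟨⟨(i, j), hij⟩, p', hp', rfl⟩

theorem level_zero_iff {p : Plane} : p ∈ carpetLevel 0 ↔ (p 0 ∈ Set.Icc (0 : ℝ) 1 ∧
    p 1 ∈ Set.Icc (0 : ℝ) 1) := by
  show (∀ i, p i ∈ Set.Icc (0 : ℝ) 1) ↔ _
  rw [Fin.forall_fin_two]

theorem subD_mem_zero {d : Digit} {p : Plane} (h : p ∈ carpetLevel 0) :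
    subD d p ∈ carpetLevel 0 := by
  rw [level_zero_iff] at h ⊢
  obtain ⟨⟨h1, h2⟩, h3, h4⟩ := h
  have e1 : (d.1.1.val : ℝ) ≤ 2 := by
    have := d.1.1.isLt
    have h : d.1.1.val ≤ 2 := by omega
    exact_mod_cast h
  have e2 : (d.1.2.val : ℝ) ≤ 2 := by
    have := d.1.2.isLt
    have h : d.1.2.val ≤ 2 := by omega
    exact_mod_cast h
  have e3 : (0 : ℝ) ≤ (d.1.1.val : ℝ) := Nat.cast_nonneg _
  have e4 : (0 : ℝ) ≤ (d.1.2.val : ℝ) := Nat.cast_nonneg _
  simp only [subD, sub, Set.mem_Icc]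
  simp only [Matrix.cons_val_zero, Matrix.cons_val_one]
  refine ⟨⟨by positivity, ?_⟩, by positivity, ?_⟩
  · rw [div_le_one (by norm_num)]
    linarith
  · rw [div_le_one (by norm_num)]
    linarith

theorem subD_mem {d : Digit} {p : Plane} (h : p ∈ carpet) : subD d p ∈ carpet := by
  simp only [carpet, Set.mem_iInter] at h ⊢
  intro n
  cases n with
  | zero => exact subD_mem_zero (h 0)
  | succ n => exact subD_mem_level (h n)

theorem cell_mem (w : List Digit) {p : Plane} (h : p ∈ carpet) : cell w p ∈ carpet := by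
  induction w generalizing p with
  | nil => rwa [cell_nil]
  | cons d w ih =>
    rw [cell_cons]
    exact ih (subD_mem h)

theorem exists_third {t : ℝ} (h : t ∈ Set.Icc (0 : ℝ) 1) :
    ∃ (u : Fin 3) (t' : ℝ), t' ∈ Set.Icc (0 : ℝ) 1 ∧ t = ((u.val : ℝ) + t') / 3 := by
  obtain ⟨h0, h1⟩ := h
  by_cases h2 : t ≤ 1 / 3
  · exact ⟨0, 3 * t, ⟨by linarith, by linarith⟩, by simp⟩
  · by_cases h3 : t ≤ 2 / 3
    · exact ⟨1, 3 * t - 1, ⟨by linarith, by linarith⟩, by simp⟩
    · exact ⟨2, 3 * t - 2, ⟨by linarith, by linarith⟩, by simp⟩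

theorem outZ_mem_level (n : ℕ) (a : Fin 4) {t : ℝ} (h : t ∈ Set.Icc (0 : ℝ) 1) :
    pt (outZ a) t ∈ carpetLevel n := by
  induction n generalizing t with
  | zero =>
    rw [level_zero_iff]
    obtain ⟨h0, h1⟩ := h
    fin_cases a <;>
    · simp [pt, outZ]
      try constructor
      all_goals linarith
  | succ n ih =>
    obtain ⟨u, t', ht', rfl⟩ := exists_third h
    obtain ⟨d, hd⟩ := side_ok a u
    rw [pt_third, hd, ← subD_pt]
    exact subD_mem_level (ih ht')

theorem outZ_mem (a : Fin 4) {t : ℝ} (h : t ∈ Set.Icc (0 : ℝ) 1) : pt (outZ a) t ∈ carpet := by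
  simp only [carpet, Set.mem_iInter]
  exact fun n => outZ_mem_level n a h

theorem inZ_mem (a : Fin 4) {t : ℝ} (h : t ∈ Set.Icc (0 : ℝ) 1) : pt (inZ a) t ∈ carpet := by
  have h' : 1 - t ∈ Set.Icc (0 : ℝ) 1 := ⟨by linarith [h.2], by linarith [h.1]⟩
  have e : pt (inZ a) t = pt (outZ (a + 2)) (1 - t) := by
    ext i
    fin_cases a <;> fin_cases i <;> simp [pt, inZ, outZ] <;> ring
  rw [e]
  exact outZ_mem _ h'

end Pool.Agent.Lib.Carpet
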