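import Mathlib
import Pool.Agent.Lib.Carpet.Geometry

/-!
The energy bound: the average distance between the images of the entry and exit points of a cell
is at most a constant times a superadditive mass to the power `20 / 33`.
-/

namespace Pool.Agent.Lib.Carpet

open scoped ENNReal NNReal

/-- Distance between the images of the entry and exit points of a visit. -/
noncomputable def cost {Y : Type*} [PseudoMetricSpace Y] (g : Plane → Y) (w : List Digit)
    (v : Visit) (t : ℝ) : ℝ :=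
  dist (g (cell w (pt (inZ v.1) t))) (g (cell w (pt (outZ (exitDir v)) t)))

theorem chain_le {Y : Type*} [PseudoMetricSpace Y] (g : Plane → Y) (w : List Digit) (t : ℝ) :
    ∀ (l : List (Digit × Visit)) (z z' : Aff), chainOK z l z' = true →
      dist (g (cell w (third z t))) (g (cell w (third z' t))) ≤
        (l.map fun x => cost g (x.1 :: w) x.2 t).sum := by
  intro l
  induction l with
  | nil =>
    intro z z' h
    simp only [chainOK, decide_eq_true_eq] at h
    subst h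
    simp
  | cons x l ih =>
    intro z z' h
    simp only [chainOK, Bool.and_eq_true, decide_eq_true_eq] at h
    obtain ⟨h1, h2⟩ := h
    have h3 := ih _ _ h2
    simp only [List.map_cons, List.sum_cons]
    refine (dist_triangle _ (g (cell w (third (shift x.1 (outZ (exitDir x.2))) t))) _).trans ?_
    refine add_le_add ?_ h3
    rw [h1, cost, cell_cons, cell_cons, subD_pt, subD_pt]

theorem cost_le {Y : Type*} [PseudoMetricSpace Y] (g : Plane → Y) (w : List Digit) (v : Visit)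
    (u : Fin 3) (s : Fin 2) (t : ℝ) :
    cost g w v (((u.val : ℝ) + t) / 3) ≤
      ((route v u s).map fun x => cost g (x.1 :: w) x.2 t).sum := by
  have h := chain_le g w t _ _ _ (route_ok v u s)
  rw [← pt_third, ← pt_third] at h
  exact h

/-- Average over the triadic points of level `n` of `[0, 1)`. -/
noncomputable def avg : ℕ → (ℝ → ℝ) → ℝ
  | 0, F => F 0
  | n + 1, F => (∑ u : Fin 3, avg n fun t => F (((u.val : ℝ) + t) / 3)) / 3

theorem avg_mono (n : ℕ) {F G : ℝ → ℝ} (h : ∀ t ∈ Set.Icc (0 : ℝ) 1, F t ≤ G t) :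
    avg n F ≤ avg n G := by
  induction n generalizing F G with
  | zero => exact h 0 ⟨le_refl _, zero_le_one⟩
  | succ n ih =>
    simp only [avg]
    refine div_le_div_of_nonneg_right ?_ (by norm_num)
    refine Finset.sum_le_sum fun u _ => ih fun t ht => h _ ?_
    have e1 : (u.val : ℝ) ≤ 2 := by
      have h : u.val ≤ 2 := by omega
      exact_mod_cast h
    have e3 : (0 : ℝ) ≤ (u.val : ℝ) := Nat.cast_nonneg _
    obtain ⟨h0, h1⟩ := ht
    constructor
    · positivity
    · rw [div_le_one (by norm_num)]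
      linarith

theorem avg_const (n : ℕ) (c : ℝ) : avg n (fun _ => c) = c := by
  induction n with
  | zero => rfl
  | succ n ih => simp [avg, ih]

theorem avg_add (n : ℕ) (F G : ℝ → ℝ) : avg n (fun t => F t + G t) = avg n F + avg n G := by
  induction n generalizing F G with
  | zero => rfl
  | succ n ih => simp only [avg, ih, Finset.sum_add_distrib, add_div]

theorem avg_list {ι : Type*} (n : ℕ) (l : List ι) (F : ι → ℝ → ℝ) :
    avg n (fun t => (l.map fun x => F x t).sum) = (l.map fun x => avg n (F x)).sum := by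
  induction l with
  | nil => simp [avg_const]
  | cons x l ih =>
    simp only [List.map_cons, List.sum_cons]
    rw [avg_add, ih]

theorem avg_cost_le {Y : Type*} [PseudoMetricSpace Y] (g : Plane → Y) (w : List Digit)
    (v : Visit) (n : ℕ) :
    avg (n + 1) (cost g w v) ≤
      (∑ u : Fin 3, ∑ s : Fin 2,
        ((route v u s).map fun x => avg n (cost g (x.1 :: w) x.2)).sum) / 6 := by
  have key : ∀ (u : Fin 3) (s : Fin 2), (avg n fun t => cost g w v (((u.val : ℝ) + t) / 3)) ≤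
      ((route v u s).map fun x => avg n (cost g (x.1 :: w) x.2)).sum := by
    intro u s
    rw [← avg_list]
    exact avg_mono n fun t _ => cost_le g w v u s t
  have key2 : ∀ u : Fin 3, 2 * (avg n fun t => cost g w v (((u.val : ℝ) + t) / 3)) ≤
      ∑ s : Fin 2, ((route v u s).map fun x => avg n (cost g (x.1 :: w) x.2)).sum := by
    intro u
    rw [Fin.sum_univ_two]
    linarith [key u 0, key u 1]
  have h3 := Finset.sum_le_sum fun (u : Fin 3) (_ : u ∈ Finset.univ) => key2 u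
  rw [← Finset.mul_sum] at h3
  simp only [avg]
  linarith

theorem sum_split (l : List (Digit × Visit)) (h : Digit → ℝ) :
    (l.map fun x => (wt x.2 : ℝ) * h x.1).sum =
      ∑ d : Digit, ((((l.filter fun x => x.1 = d).map fun x => wt x.2).sum : ℕ) : ℝ) * h d := by
  induction l with
  | nil => simp
  | cons x l ih =>
    have e : ∀ d : Digit, (((((x :: l).filter fun x => x.1 = d).map fun x => wt x.2).sum : ℕ) : ℝ)
        * h d = (if x.1 = d then (wt x.2 : ℝ) * h d else 0) +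
          ((((l.filter fun x => x.1 = d).map fun x => wt x.2).sum : ℕ) : ℝ) * h d := by
      intro d
      by_cases hd : x.1 = d
      · simp [hd, add_mul]
      · simp [hd]
    rw [Finset.sum_congr rfl fun d _ => e d, Finset.sum_add_distrib, ← ih]
    simp

theorem rpow_bound {x y : ℝ} (hx : 0 ≤ x) (hy : 0 ≤ y) (h : x ^ 33 ≤ y ^ 13) :
    x ^ (33 / 13 : ℝ) ≤ y := by
  have h1 : x ^ (33 / 13 : ℝ) = (x ^ 33) ^ (1 / 13 : ℝ) := by
    rw [← Real.rpow_natCast x 33, ← Real.rpow_mul hx]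
    norm_num
  have h2 : y = (y ^ 13) ^ (1 / 13 : ℝ) := by
    rw [← Real.rpow_natCast y 13, ← Real.rpow_mul hy]
    norm_num
  rw [h1, h2]
  exact Real.rpow_le_rpow (by positivity) h (by norm_num)

theorem numeric_straight : (4 : ℝ) * 14 ^ (33 / 13 : ℝ) + 2 * 15 ^ (33 / 13 : ℝ) +
    2 * 8 ^ (33 / 13 : ℝ) ≤ 30 ^ (33 / 13 : ℝ) := by
  have h1 : ((7 / 15 : ℝ)) ^ (33 / 13 : ℝ) ≤ 1446 / 10000 :=
    rpow_bound (by norm_num) (by norm_num) (by norm_num)
  have h2 : ((1 / 2 : ℝ)) ^ (33 / 13 : ℝ) ≤ 1723 / 10000 :=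
    rpow_bound (by norm_num) (by norm_num) (by norm_num)
  have h3 : ((4 / 15 : ℝ)) ^ (33 / 13 : ℝ) ≤ 350 / 10000 :=
    rpow_bound (by norm_num) (by norm_num) (by norm_num)
  have e1 : (14 : ℝ) ^ (33 / 13 : ℝ) = 30 ^ (33 / 13 : ℝ) * (7 / 15 : ℝ) ^ (33 / 13 : ℝ) := by
    rw [← Real.mul_rpow (by norm_num) (by norm_num)]
    norm_num
  have e2 : (15 : ℝ) ^ (33 / 13 : ℝ) = 30 ^ (33 / 13 : ℝ) * (1 / 2 : ℝ) ^ (33 / 13 : ℝ) := by
    rw [← Real.mul_rpow (by norm_num) (by norm_num)]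
    norm_num
  have e3 : (8 : ℝ) ^ (33 / 13 : ℝ) = 30 ^ (33 / 13 : ℝ) * (4 / 15 : ℝ) ^ (33 / 13 : ℝ) := by
    rw [← Real.mul_rpow (by norm_num) (by norm_num)]
    norm_num
  have hpos : (0 : ℝ) < 30 ^ (33 / 13 : ℝ) := by positivity
  rw [e1, e2, e3]
  nlinarith

theorem numeric_turn : (16 : ℝ) ^ (33 / 13 : ℝ) + 3 * 8 ^ (33 / 13 : ℝ) +
    4 * 10 ^ (33 / 13 : ℝ) ≤ 24 ^ (33 / 13 : ℝ) := by
  have h1 : ((2 / 3 : ℝ)) ^ (33 / 13 : ℝ) ≤ 358 / 1000 :=
    rpow_bound (by norm_num) (by norm_num) (by norm_num)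
  have h2 : ((1 / 3 : ℝ)) ^ (33 / 13 : ℝ) ≤ 62 / 1000 :=
    rpow_bound (by norm_num) (by norm_num) (by norm_num)
  have h3 : ((5 / 12 : ℝ)) ^ (33 / 13 : ℝ) ≤ 109 / 1000 :=
    rpow_bound (by norm_num) (by norm_num) (by norm_num)
  have e1 : (16 : ℝ) ^ (33 / 13 : ℝ) = 24 ^ (33 / 13 : ℝ) * (2 / 3 : ℝ) ^ (33 / 13 : ℝ) := by
    rw [← Real.mul_rpow (by norm_num) (by norm_num)]
    norm_num
  have e2 : (8 : ℝ) ^ (33 / 13 : ℝ) = 24 ^ (33 / 13 : ℝ) * (1 / 3 : ℝ) ^ (33 / 13 : ℝ) := by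
    rw [← Real.mul_rpow (by norm_num) (by norm_num)]
    norm_num
  have e3 : (10 : ℝ) ^ (33 / 13 : ℝ) = 24 ^ (33 / 13 : ℝ) * (5 / 12 : ℝ) ^ (33 / 13 : ℝ) := by
    rw [← Real.mul_rpow (by norm_num) (by norm_num)]
    norm_num
  have hpos : (0 : ℝ) < 24 ^ (33 / 13 : ℝ) := by positivity
  rw [e1, e2, e3]
  nlinarith

theorem load_sum_eq (v : Visit) (F : ℕ → ℝ) :
    ∑ d : Digit, F (load v d) = (((Finset.univ : Finset Digit).val.map (load v)).map F).sum := by
  rw [Multiset.map_map]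
  rfl

theorem load_norm (v : Visit) :
    ∑ d : Digit, ((load v d : ℕ) : ℝ) ^ (33 / 13 : ℝ) ≤ (6 * (wt v : ℝ)) ^ (33 / 13 : ℝ) := by
  obtain ⟨a, k⟩ := v
  rw [load_sum_eq (a, k) fun n => (n : ℝ) ^ (33 / 13 : ℝ)]
  by_cases hk : k = 0
  · subst hk
    rw [load_straight]
    have hw : (6 : ℝ) * (wt (a, 0) : ℝ) = 30 := by norm_num [wt]
    rw [hw]
    simp only [Multiset.insert_eq_cons, Multiset.map_cons, Multiset.map_singleton,
      Multiset.sum_cons, Multiset.sum_singleton, Nat.cast_ofNat]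
    linarith [numeric_straight]
  · rw [load_turn a k hk]
    have hw : (6 : ℝ) * (wt (a, k) : ℝ) = 24 := by
      have : wt (a, k) = 4 := by simp [wt, hk]
      rw [this]
      norm_num
    rw [hw]
    simp only [Multiset.insert_eq_cons, Multiset.map_cons, Multiset.map_singleton,
      Multiset.sum_cons, Multiset.sum_singleton, Nat.cast_ofNat]
    linarith [numeric_turn]

theorem holder_step (v : Visit) (b : Digit → ℝ) (hb : ∀ d, 0 ≤ b d) {m : ℝ}
    (hm : ∑ d : Digit, b d ≤ m) :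
    ∑ d : Digit, ((load v d : ℕ) : ℝ) * (b d) ^ (20 / 33 : ℝ) ≤
      6 * (wt v : ℝ) * m ^ (20 / 33 : ℝ) := by
  have hpq : (33 / 13 : ℝ).HolderConjugate (33 / 20) := by
    rw [Real.holderConjugate_iff]
    norm_num
  have h := Real.inner_le_Lp_mul_Lq_of_nonneg (Finset.univ : Finset Digit)
    (f := fun d => ((load v d : ℕ) : ℝ)) (g := fun d => (b d) ^ (20 / 33 : ℝ)) hpq
    (fun d _ => Nat.cast_nonneg _) (fun d _ => Real.rpow_nonneg (hb d) _)
  refine h.trans ?_
  have e1 : ∀ d, ((b d) ^ (20 / 33 : ℝ)) ^ (33 / 20 : ℝ) = b d := by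
    intro d
    rw [← Real.rpow_mul (hb d)]
    norm_num
  simp only [e1]
  have h2 : (∑ d : Digit, ((load v d : ℕ) : ℝ) ^ (33 / 13 : ℝ)) ^ (1 / (33 / 13) : ℝ) ≤
      6 * (wt v : ℝ) := by
    have h3 := Real.rpow_le_rpow (Finset.sum_nonneg fun d _ => Real.rpow_nonneg
      (Nat.cast_nonneg _) _) (load_norm v) (show (0 : ℝ) ≤ 1 / (33 / 13) by norm_num)
    refine h3.trans (le_of_eq ?_)
    rw [← Real.rpow_mul (by positivity)]
    norm_num
  have h4 : (∑ d : Digit, b d) ^ (1 / (33 / 20) : ℝ) ≤ m ^ (20 / 33 : ℝ) := by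
    have e2 : (1 / (33 / 20) : ℝ) = 20 / 33 := by norm_num
    rw [e2]
    exact Real.rpow_le_rpow (Finset.sum_nonneg fun d _ => hb d) hm (by norm_num)
  exact mul_le_mul h2 h4 (Real.rpow_nonneg (Finset.sum_nonneg fun d _ => hb d) _) (by positivity)

/-- A word is barred by a set of words if every infinite extension meets the set. -/
inductive Barred (U : Set (List Digit)) : List Digit → Prop
  | leaf {w : List Digit} : w ∈ U → Barred U w
  | node {w : List Digit} : (∀ d : Digit, Barred U (d :: w)) → Barred U w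

theorem energy {Y : Type*} [PseudoMetricSpace Y] (g : Plane → Y) (U : Set (List Digit))
    (m : List Digit → ℝ) (hm0 : ∀ w, 0 ≤ m w) (hm : ∀ w, ∑ d : Digit, m (d :: w) ≤ m w)
    (hU : ∀ w ∈ U, ∀ x ∈ carpet, ∀ y ∈ carpet,
      dist (g (cell w x)) (g (cell w y)) ≤ (m w) ^ (20 / 33 : ℝ))
    {w : List Digit} (hw : Barred U w) :
    ∃ N₀ : ℕ, ∀ N ≥ N₀, ∀ v : Visit,
      avg N (cost g w v) ≤ (wt v : ℝ) / 4 * (m w) ^ (20 / 33 : ℝ) := by
  induction hw with
  | @leaf w hw =>
    refine ⟨0, fun N _ v => ?_⟩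
    have h1 : avg N (cost g w v) ≤ avg N fun _ => (m w) ^ (20 / 33 : ℝ) :=
      avg_mono N fun t ht => hU w hw _ (inZ_mem _ ht) _ (outZ_mem _ ht)
    rw [avg_const] at h1
    have h2 : (4 : ℝ) ≤ (wt v : ℝ) := by
      have : 4 ≤ wt v := by
        unfold wt
        split_ifs <;> norm_num
      exact_mod_cast this
    have h3 : 0 ≤ (m w) ^ (20 / 33 : ℝ) := Real.rpow_nonneg (hm0 w) _
    nlinarith
  | @node w _ ih =>
    choose N₀ hN₀ using ih
    refine ⟨(Finset.univ.sup N₀) + 1, fun N hN v => ?_⟩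
    obtain ⟨N, rfl⟩ : ∃ N', N = N' + 1 := ⟨N - 1, by omega⟩
    have hN' : ∀ d : Digit, N ≥ N₀ d := by
      intro d
      have : N₀ d ≤ Finset.univ.sup N₀ := Finset.le_sup (Finset.mem_univ d)
      omega
    refine (avg_cost_le g w v N).trans ?_
    have h1 : ∀ (u : Fin 3) (s : Fin 2),
        ((route v u s).map fun x => avg N (cost g (x.1 :: w) x.2)).sum ≤
        (∑ d : Digit, (((((route v u s).filter fun x => x.1 = d).map fun x => wt x.2).sum : ℕ) : ℝ)
          * (m (d :: w)) ^ (20 / 33 : ℝ)) / 4 := by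
      intro u s
      rw [← sum_split _ fun d => (m (d :: w)) ^ (20 / 33 : ℝ)]
      have h2 : ((route v u s).map fun x => avg N (cost g (x.1 :: w) x.2)).sum ≤
          ((route v u s).map fun x => (wt x.2 : ℝ) * (m (x.1 :: w)) ^ (20 / 33 : ℝ) * (1 / 4)).sum
          := by
        refine List.sum_le_sum fun x _ => ?_
        refine (hN₀ x.1 N (hN' x.1) x.2).trans (le_of_eq ?_)
        ring
      refine h2.trans (le_of_eq ?_)
      rw [List.sum_map_mul_right]
      ring
    have h3 : ∑ u : Fin 3, ∑ s : Fin 2,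
        ((route v u s).map fun x => avg N (cost g (x.1 :: w) x.2)).sum ≤
        (∑ d : Digit, ((load v d : ℕ) : ℝ) * (m (d :: w)) ^ (20 / 33 : ℝ)) / 4 := by
      refine (Finset.sum_le_sum fun (u : Fin 3) (_ : u ∈ Finset.univ) =>
        Finset.sum_le_sum fun (s : Fin 2) (_ : s ∈ Finset.univ) => h1 u s).trans
        (le_of_eq ?_)
      have e : ∀ d : Digit, ((load v d : ℕ) : ℝ) * (m (d :: w)) ^ (20 / 33 : ℝ) =
          ∑ u : Fin 3, ∑ s : Fin 2,
            (((((route v u s).filter fun x => x.1 = d).map fun x => wt x.2).sum : ℕ) : ℝ)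
            * (m (d :: w)) ^ (20 / 33 : ℝ) := by
        intro d
        simp only [load, Nat.cast_sum, Finset.sum_mul]
      have e2 : ∑ d : Digit, ((load v d : ℕ) : ℝ) * (m (d :: w)) ^ (20 / 33 : ℝ) =
          ∑ u : Fin 3, ∑ s : Fin 2, ∑ d : Digit,
            (((((route v u s).filter fun x => x.1 = d).map fun x => wt x.2).sum : ℕ) : ℝ)
            * (m (d :: w)) ^ (20 / 33 : ℝ) := by
        rw [Finset.sum_congr rfl fun d _ => e d, Finset.sum_comm]
        refine Finset.sum_congr rfl fun u _ => ?_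
        rw [Finset.sum_comm]
      rw [e2, Finset.sum_div]
      refine Finset.sum_congr rfl fun u _ => ?_
      rw [Finset.sum_div]
    have h4 : ∑ d : Digit, ((load v d : ℕ) : ℝ) * (m (d :: w)) ^ (20 / 33 : ℝ) ≤
        6 * (wt v : ℝ) * (m w) ^ (20 / 33 : ℝ) :=
      holder_step v (fun d => m (d :: w)) (fun d => hm0 _) (hm w)
    calc _ ≤ ((∑ d : Digit, ((load v d : ℕ) : ℝ) * (m (d :: w)) ^ (20 / 33 : ℝ)) / 4) / 6 := by
            exact div_le_div_of_nonneg_right h3 (by norm_num)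
      _ ≤ ((6 * (wt v : ℝ) * (m w) ^ (20 / 33 : ℝ)) / 4) / 6 := by
            gcongr
      _ = _ := by ring

theorem avg_ge (n : ℕ) {F : ℝ → ℝ} {c : ℝ} (h : ∀ t ∈ Set.Icc (0 : ℝ) 1, c ≤ F t) :
    c ≤ avg n F := by
  rw [← avg_const n c]
  exact avg_mono n h

/-- If the distance between the images of opposite boundary points of the square is at least
`c`, then so is the mass of the whole carpet, up to a constant and an exponent. -/
theorem mass_lower {Y : Type*} [PseudoMetricSpace Y] (g : Plane → Y) (U : Set (List Digit))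
    (m : List Digit → ℝ) (hm0 : ∀ w, 0 ≤ m w) (hm : ∀ w, ∑ d : Digit, m (d :: w) ≤ m w)
    (hU : ∀ w ∈ U, ∀ x ∈ carpet, ∀ y ∈ carpet,
      dist (g (cell w x)) (g (cell w y)) ≤ (m w) ^ (20 / 33 : ℝ))
    (hB : Barred U []) {c : ℝ}
    (hc : ∀ t ∈ Set.Icc (0 : ℝ) 1, c ≤ dist (g (pt (inZ 0) t)) (g (pt (outZ 0) t))) :
    c ≤ 5 / 4 * (m []) ^ (20 / 33 : ℝ) := by
  obtain ⟨N₀, h⟩ := energy g U m hm0 hm hU hB
  have h1 := h N₀ le_rfl (0, 0)
  have h2 : c ≤ avg N₀ (cost g [] (0, 0)) := by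
    refine avg_ge N₀ fun t ht => ?_
    simp only [cost, cell_nil]
    exact hc t ht
  have h3 : ((wt (0, 0) : ℕ) : ℝ) = 5 := by norm_num [wt]
  rw [h3] at h1
  exact h2.trans h1

end Pool.Agent.Lib.Carpet
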