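import Mathlib
import Pool.Agent.Lib.Carpet.Energy

/-!
Compactness of the carpet, size and number of cells, and a bar lemma.
-/

namespace Pool.Agent.Lib.Carpet

open scoped ENNReal NNReal

theorem dist_cell (w : List Digit) (x y : Plane) :
    dist (cell w x) (cell w y) = dist x y / 3 ^ w.length := by
  rw [EuclideanSpace.dist_eq, EuclideanSpace.dist_eq, Fin.sum_univ_two, Fin.sum_univ_two]
  have hpos : (0 : ℝ) < 3 ^ w.length := by positivity
  have e0 : dist (cell w x 0) (cell w y 0) = dist (x 0) (y 0) / 3 ^ w.length := by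
    have h : cell w x 0 - cell w y 0 = (x 0 - y 0) / 3 ^ w.length := by
      simp only [cell]
      simp
      ring
    rw [Real.dist_eq, Real.dist_eq, h, abs_div, abs_of_pos hpos]
  have e1 : dist (cell w x 1) (cell w y 1) = dist (x 1) (y 1) / 3 ^ w.length := by
    have h : cell w x 1 - cell w y 1 = (x 1 - y 1) / 3 ^ w.length := by
      simp only [cell]
      simp
      ring
    rw [Real.dist_eq, Real.dist_eq, h, abs_div, abs_of_pos hpos]
  rw [e0, e1, div_pow, div_pow, ← add_div, Real.sqrt_div' _ (by positivity),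
    Real.sqrt_sq hpos.le]

theorem dist_le_two {x y : Plane} (hx : x ∈ carpetLevel 0) (hy : y ∈ carpetLevel 0) :
    dist x y ≤ 2 := by
  rw [level_zero_iff] at hx hy
  obtain ⟨⟨a1, a2⟩, a3, a4⟩ := hx
  obtain ⟨⟨b1, b2⟩, b3, b4⟩ := hy
  rw [EuclideanSpace.dist_eq, Fin.sum_univ_two, Real.dist_eq, Real.dist_eq, sq_abs, sq_abs]
  have h : √((x 0 - y 0) ^ 2 + (x 1 - y 1) ^ 2) ≤ √4 := by
    apply Real.sqrt_le_sqrt
    nlinarith
  have h2 : √(4 : ℝ) = 2 := by
    rw [show (4 : ℝ) = 2 ^ 2 by norm_num]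
    exact Real.sqrt_sq (by norm_num)
  rw [h2] at h
  exact h

theorem carpet_subset_zero {x : Plane} (hx : x ∈ carpet) : x ∈ carpetLevel 0 := by
  simp only [carpet, Set.mem_iInter] at hx
  exact hx 0

theorem dist_cell_le (w : List Digit) {x y : Plane} (hx : x ∈ carpet) (hy : y ∈ carpet) :
    dist (cell w x) (cell w y) ≤ 2 / 3 ^ w.length := by
  rw [dist_cell]
  have := dist_le_two (carpet_subset_zero hx) (carpet_subset_zero hy)
  gcongr

theorem continuous_cell (w : List Digit) : Continuous (cell w) := by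
  refine (LipschitzWith.of_dist_le_mul (K := 1) fun x y => ?_).continuous
  rw [dist_cell]
  have h : (1 : ℝ) ≤ 3 ^ w.length := one_le_pow₀ (by norm_num)
  rw [NNReal.coe_one, one_mul]
  exact div_le_self dist_nonneg h

theorem subD_eq_cell (d : Digit) : subD d = cell [d] := by
  funext p
  rw [cell_cons, cell_nil]

theorem isCompact_level (n : ℕ) : IsCompact (carpetLevel n) := by
  induction n with
  | zero =>
    have h1 : IsCompact (Set.univ.pi fun _ : Fin 2 => Set.Icc (0 : ℝ) 1) :=
      isCompact_univ_pi fun _ => isCompact_Icc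
    have h2 := h1.image (PiLp.continuous_toLp 2 fun _ : Fin 2 => ℝ)
    refine Eq.subst (motive := fun s => IsCompact s) ?_ h2
    ext p
    constructor
    · rintro ⟨q, hq, rfl⟩
      exact fun i => hq i (Set.mem_univ i)
    · intro hp
      exact ⟨fun i => p i, fun i _ => hp i, rfl⟩
  | succ n ih =>
    have h : carpetLevel (n + 1) = ⋃ d : Digit, cell [d] '' carpetLevel n := by
      ext p
      rw [Set.mem_iUnion]
      constructor
      · intro hp
        obtain ⟨d, p', hp', rfl⟩ := mem_level_succ hp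
        exact ⟨d, p', hp', by rw [subD_eq_cell]⟩
      · rintro ⟨d, p', hp', rfl⟩
        rw [← subD_eq_cell]
        exact subD_mem_level hp'
    rw [h]
    exact isCompact_iUnion fun d => ih.image (continuous_cell _)

theorem isCompact_carpet : IsCompact carpet := by
  have h : IsClosed carpet := isClosed_iInter fun n => (isCompact_level n).isClosed
  exact (isCompact_level 0).of_isClosed_subset h fun x hx => carpet_subset_zero hx

theorem idx_inj : ∀ (w w' : List Digit), w.length = w'.length → idx w = idx w' → w = w' := by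
  intro w
  induction w with
  | nil =>
    intro w' h _
    exact (List.length_eq_zero_iff.mp h.symm).symm
  | cons d w ih =>
    intro w' h h2
    cases w' with
    | nil => simp at h
    | cons d' w' =>
      simp only [List.length_cons, Nat.add_right_cancel_iff] at h
      simp only [idx, Prod.mk.injEq] at h2
      obtain ⟨h3, h4⟩ := h2
      have a1 := d.1.1.isLt
      have a2 := d.1.2.isLt
      have a3 := d'.1.1.isLt
      have a4 := d'.1.2.isLt
      have e1 : (idx w).1 = (idx w').1 := by omega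
      have e2 : (idx w).2 = (idx w').2 := by omega
      have e3 : d.1.1.val = d'.1.1.val := by omega
      have e4 : d.1.2.val = d'.1.2.val := by omega
      have e5 : d = d' := Subtype.ext (Prod.ext (Fin.ext e3) (Fin.ext e4))
      rw [ih w' h (Prod.ext e1 e2), e5]

theorem coord_bound {i : ℕ} {x' a s R : ℝ} (hs : 0 < s) (h0 : 0 ≤ x') (h1 : x' ≤ 1)
    (hR : R ≤ 3 / s) (hd : |a - ((i : ℝ) + x') / s| ≤ R) :
    (i : ℤ) ∈ Finset.Icc (⌊s * a⌋ - 4) (⌊s * a⌋ + 3) := by
  have h2 : |s * a - ((i : ℝ) + x')| ≤ 3 := by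
    have e : s * a - ((i : ℝ) + x') = s * (a - ((i : ℝ) + x') / s) := by
      field_simp
    rw [e, abs_mul, abs_of_pos hs]
    calc s * |a - ((i : ℝ) + x') / s| ≤ s * (3 / s) := by
          refine mul_le_mul_of_nonneg_left (hd.trans hR) hs.le
      _ = 3 := by field_simp
  rw [abs_le] at h2
  obtain ⟨h3, h4⟩ := h2
  have f1 := Int.floor_le (s * a)
  have f2 := Int.lt_floor_add_one (s * a)
  rw [Finset.mem_Icc]
  constructor
  · have : ((⌊s * a⌋ - 4 : ℤ) : ℝ) ≤ ((i : ℤ) : ℝ) := by
      push_cast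
      linarith
    exact_mod_cast this
  · have : ((i : ℤ) : ℝ) < ((⌊s * a⌋ + 4 : ℤ) : ℝ) := by
      push_cast
      linarith
    have h5 : (i : ℤ) < ⌊s * a⌋ + 4 := by exact_mod_cast this
    omega

theorem abs_coord_le (x y : Plane) (i : Fin 2) : |x i - y i| ≤ dist x y := by
  rw [EuclideanSpace.dist_eq, ← Real.dist_eq]
  refine Real.le_sqrt_of_sq_le ?_
  exact Finset.single_le_sum (f := fun i => dist (x i) (y i) ^ 2) (fun _ _ => sq_nonneg _)
    (Finset.mem_univ i)

/-- Words of length `k` whose cell meets a ball of radius `R`. -/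
def near (k : ℕ) (a : Plane) (R : ℝ) : Set (List Digit) :=
  {w | w.length = k ∧ ∃ x ∈ carpet, dist a (cell w x) ≤ R}

theorem near_finite {k : ℕ} {a : Plane} {R : ℝ} (hR : R ≤ 3 / 3 ^ k) :
    (near k a R).Finite ∧ (near k a R).ncard ≤ 64 := by
  have hs : (0 : ℝ) < 3 ^ k := by positivity
  set B : Finset (ℤ × ℤ) := Finset.Icc (⌊(3 : ℝ) ^ k * a 0⌋ - 4) (⌊(3 : ℝ) ^ k * a 0⌋ + 3) ×ˢ
    Finset.Icc (⌊(3 : ℝ) ^ k * a 1⌋ - 4) (⌊(3 : ℝ) ^ k * a 1⌋ + 3) with hB
  have hcard : B.card = 64 := by
    rw [hB, Finset.card_product, Int.card_Icc, Int.card_Icc]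
    have e : ∀ z : ℤ, (z + 3 + 1 - (z - 4)).toNat = 8 := by
      intro z
      have : z + 3 + 1 - (z - 4) = 8 := by ring
      rw [this]
      rfl
    rw [e, e]
  set F : List Digit → ℤ × ℤ := fun w => (((idx w).1 : ℤ), ((idx w).2 : ℤ)) with hF
  have hmaps : ∀ w ∈ near k a R, F w ∈ (B : Set (ℤ × ℤ)) := by
    rintro w ⟨hk, x, hx, hd⟩
    obtain ⟨⟨a1, a2⟩, a3, a4⟩ := level_zero_iff.mp (carpet_subset_zero hx)
    have g0 := (abs_coord_le a (cell w x) 0).trans hd
    have g1 := (abs_coord_le a (cell w x) 1).trans hd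
    have c0 : cell w x 0 = (((idx w).1 : ℝ) + x 0) / 3 ^ k := by
      rw [← hk]
      simp [cell]
    have c1 : cell w x 1 = (((idx w).2 : ℝ) + x 1) / 3 ^ k := by
      rw [← hk]
      simp [cell]
    rw [c0] at g0
    rw [c1] at g1
    rw [Finset.mem_coe, hB, Finset.mem_product]
    exact ⟨coord_bound hs a1 a2 hR g0, coord_bound hs a3 a4 hR g1⟩
  have hinj : Set.InjOn F (near k a R) := by
    rintro w ⟨hk, _⟩ w' ⟨hk', _⟩ h
    simp only [hF, Prod.mk.injEq, Nat.cast_inj] at h
    exact idx_inj w w' (hk.trans hk'.symm) (Prod.ext h.1 h.2)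
  refine ⟨Set.Finite.of_injOn hmaps hinj B.finite_toSet, ?_⟩
  have h := Set.ncard_le_ncard_of_injOn F hmaps hinj B.finite_toSet
  rw [Set.ncard_coe_finset, hcard] at h
  exact h

theorem tsum_indicator_le {B : Set (List Digit)} (hB : B.Finite) (hc : B.ncard ≤ 64)
    (r : List Digit → ℝ≥0∞) (M : ℝ≥0∞) (h : ∀ U ∈ B, r U ≤ M) :
    ∑' U, B.indicator r U ≤ 64 * M := by
  rw [tsum_eq_sum (s := hB.toFinset) fun U hU => Set.indicator_of_notMem (fun h' => hU
    (hB.mem_toFinset.mpr h')) r]
  have h1 : ∑ U ∈ hB.toFinset, B.indicator r U ≤ hB.toFinset.card • M := by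
    refine Finset.sum_le_card_nsmul _ _ _ fun U hU => ?_
    rw [Set.indicator_of_mem (hB.mem_toFinset.mp hU)]
    exact h U (hB.mem_toFinset.mp hU)
  refine h1.trans ?_
  rw [nsmul_eq_mul]
  refine mul_le_mul_left ?_ M
  have h2 : hB.toFinset.card ≤ 64 := by
    rw [← Set.ncard_eq_toFinset_card B hB]
    exact hc
  exact_mod_cast h2

theorem cell_cons_subset (d : Digit) (w : List Digit) :
    cell (d :: w) '' carpet ⊆ cell w '' carpet := by
  rintro _ ⟨x, hx, rfl⟩
  exact ⟨subD d x, subD_mem hx, (cell_cons d w x).symm⟩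

theorem carpet_nonempty : carpet.Nonempty := ⟨_, outZ_mem 0 (t := 0) ⟨le_rfl, zero_le_one⟩⟩

/-- If every point `x` of the carpet has a level `k` such that all words of length `k` whose
cell contains `x` belong to `U`, then `U` bars the empty word. -/
theorem barred_of_cover (U : Set (List Digit))
    (h : ∀ x ∈ carpet, ∃ k : ℕ, ∀ w : List Digit, w.length = k → x ∈ cell w '' carpet → w ∈ U) :
    Barred U [] := by
  by_contra hcon
  have step : ∀ w : {w : List Digit // ¬ Barred U w}, ∃ d : Digit, ¬ Barred U (d :: w.1) := by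
    rintro ⟨w, hw⟩
    by_contra h2
    push Not at h2
    exact hw (Barred.node h2)
  choose D hD using step
  let W : ℕ → {w : List Digit // ¬ Barred U w} := fun n =>
    Nat.rec ⟨[], hcon⟩ (fun _ w => ⟨D w :: w.1, hD w⟩) n
  have hW : ∀ n, (W (n + 1)).1 = D (W n) :: (W n).1 := fun n => rfl
  have hlen : ∀ n, (W n).1.length = n := by
    intro n
    induction n with
    | zero => rfl
    | succ n ih => rw [hW, List.length_cons, ih]
  have hne : (⋂ n, cell (W n).1 '' carpet).Nonempty := by
    refine IsCompact.nonempty_iInter_of_sequence_nonempty_isCompact_isClosed _ ?_ ?_ ?_ ?_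
    · intro n
      rw [hW]
      exact cell_cons_subset _ _
    · exact fun n => carpet_nonempty.image _
    · exact isCompact_carpet.image (continuous_cell _)
    · exact fun n => (isCompact_carpet.image (continuous_cell _)).isClosed
  obtain ⟨x, hx⟩ := hne
  rw [Set.mem_iInter] at hx
  have hxc : x ∈ carpet := by
    obtain ⟨x', hx', rfl⟩ := hx 0
    exact cell_mem _ hx'
  obtain ⟨k, hk⟩ := h x hxc
  exact (W k).2 (Barred.leaf (hk _ (hlen k) (hx k)))

end Pool.Agent.Lib.Carpet
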