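import Mathlib
import Pool.Agent.Lib.Carpet.Cells

/-!
Hausdorff covers of a quasisymmetric image of the carpet, pulled back to families of cells.
-/

namespace Pool.Agent.Lib.Carpet

open scoped ENNReal NNReal

/-- The map extended to the plane by a constant. -/
noncomputable def ext {Y : Type*} (f : carpet → Y) (p : Plane) : Y :=
  open Classical in
  if h : p ∈ carpet then f ⟨p, h⟩ else f ⟨pt (outZ 0) 0, outZ_mem 0 ⟨le_rfl, zero_le_one⟩⟩

theorem ext_eq {Y : Type*} (f : carpet → Y) {p : Plane} (h : p ∈ carpet) :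
    ext f p = f ⟨p, h⟩ := by
  rw [ext, dif_pos h]

/-- The mass of a cell: the diameter of its image to the power `33 / 20`. -/
noncomputable def cellMass {Y : Type*} [MetricSpace Y] (f : carpet → Y) (w : List Digit) :
    ℝ≥0∞ :=
  (Metric.ediam (ext f '' (cell w '' carpet))) ^ (33 / 20 : ℝ)

/-- Words of length `k` whose cell meets the preimage of `A`. -/
def meet {Y : Type*} (f : carpet → Y) (k : ℕ) (A : Set Y) : Set (List Digit) :=
  {w | w.length = k ∧ ∃ x ∈ carpet, ext f (cell w x) ∈ A}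

theorem cellMass_le {Y : Type*} [MetricSpace Y] (f : carpet → Y) (w : List Digit) {M : ℝ≥0∞}
    (h : ∀ x ∈ carpet, ∀ y ∈ carpet, edist (ext f (cell w x)) (ext f (cell w y)) ≤ M) :
    cellMass f w ≤ M ^ (33 / 20 : ℝ) := by
  refine ENNReal.rpow_le_rpow ?_ (by norm_num)
  refine Metric.ediam_le ?_
  rintro _ ⟨_, ⟨x, hx, rfl⟩, rfl⟩ _ ⟨_, ⟨y, hy, rfl⟩, rfl⟩
  exact h x hx y hy

theorem exists_small (e : ℝ≥0∞) (he : 0 < e) :
    ∃ δ : ℝ≥0, 0 < δ ∧ 64 * ((δ : ℝ≥0∞) ^ (33 / 20 : ℝ)) ≤ e := by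
  have h1 : (0 : ℝ≥0∞) < (e / 64) ^ (20 / 33 : ℝ) := by
    refine ENNReal.rpow_pos_of_nonneg (ENNReal.div_pos he.ne' (by norm_num)) (by norm_num)
  obtain ⟨δ, hδ0, hδ⟩ := ENNReal.lt_iff_exists_nnreal_btwn.mp h1
  refine ⟨δ, by exact_mod_cast hδ0, ?_⟩
  have h2 : (δ : ℝ≥0∞) ^ (33 / 20 : ℝ) ≤ e / 64 := by
    have h3 := ENNReal.rpow_le_rpow hδ.le (show (0 : ℝ) ≤ 33 / 20 by norm_num)
    rw [← ENNReal.rpow_mul] at h3
    have h4 : (20 / 33 : ℝ) * (33 / 20) = 1 := by norm_num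
    rw [h4, ENNReal.rpow_one] at h3
    exact h3
  calc 64 * ((δ : ℝ≥0∞) ^ (33 / 20 : ℝ)) ≤ 64 * (e / 64) := by gcongr
    _ = e := ENNReal.mul_div_cancel (by norm_num) (by norm_num)

/-- Level choice for a set with at most one point. -/
theorem level_subsingleton {Y : Type*} [MetricSpace Y] (f : carpet ≃ₜ Y) (A : Set Y)
    (hA : A.Subsingleton) (e : ℝ≥0∞) (he : 0 < e) :
    ∃ k : ℕ, ∑' U, (meet f k A).indicator (cellMass f) U ≤ e := by
  obtain ⟨δ, hδ0, hδ⟩ := exists_small e he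
  have : CompactSpace carpet := isCompact_iff_compactSpace.mp isCompact_carpet
  have huc : UniformContinuous f := CompactSpace.uniformContinuous_of_continuous f.continuous
  rw [Metric.uniformContinuous_iff] at huc
  obtain ⟨δ', hδ'0, hδ'⟩ := huc δ (by exact_mod_cast hδ0)
  obtain ⟨k, hk⟩ : ∃ k : ℕ, 2 / 3 ^ k < δ' := by
    obtain ⟨k, hk⟩ := exists_pow_lt_of_lt_one (show (0 : ℝ) < δ' / 2 by positivity)
      (show (1 / 3 : ℝ) < 1 by norm_num)
    refine ⟨k, ?_⟩
    rw [one_div, inv_pow] at hk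
    rw [div_eq_mul_inv]
    linarith
  refine ⟨k, ?_⟩
  obtain ⟨a, ha⟩ : ∃ a : Plane, meet f k A ⊆ near k a 0 := by
    by_cases hne : ∃ a ∈ carpet, ext f a ∈ A
    · obtain ⟨a, hac, haA⟩ := hne
      refine ⟨a, ?_⟩
      rintro w ⟨hwk, x, hx, hxA⟩
      refine ⟨hwk, x, hx, ?_⟩
      have h1 := hA haA hxA
      rw [ext_eq f hac, ext_eq f (cell_mem w hx)] at h1
      have h2 := f.injective h1
      rw [Subtype.mk.injEq] at h2
      rw [h2, dist_self]
    · refine ⟨0, ?_⟩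
      rintro w ⟨_, x, hx, hxA⟩
      exact absurd ⟨cell w x, cell_mem w hx, hxA⟩ hne
  obtain ⟨hf, hc⟩ := near_finite (k := k) (a := a) (R := 0) (by positivity)
  refine (tsum_indicator_le (hf.subset ha) ((Set.ncard_le_ncard ha hf).trans hc) _
    ((δ : ℝ≥0∞) ^ (33 / 20 : ℝ)) ?_).trans hδ
  rintro w ⟨hwk, _⟩
  refine cellMass_le f w fun x hx y hy => ?_
  rw [ext_eq f (cell_mem w hx), ext_eq f (cell_mem w hy)]
  have h1 : dist (⟨cell w x, cell_mem w hx⟩ : carpet) ⟨cell w y, cell_mem w hy⟩ < δ' := by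
    rw [Subtype.dist_eq]
    refine (dist_cell_le w hx hy).trans_lt ?_
    rw [hwk]
    exact hk
  have h2 := (hδ' h1).le
  rw [edist_dist]
  rw [ENNReal.ofReal_le_iff_le_toReal (by simp)]
  simpa using h2

/-- Level choice for a set with at least two points. -/
theorem level_nontrivial {Y : Type*} [MetricSpace Y] (f : carpet ≃ₜ Y) (η : ℝ≥0 → ℝ≥0)
    (hη : ∀ (x a b : carpet) (t : ℝ≥0), nndist x a ≤ t * nndist x b →
      nndist (f x) (f a) ≤ η t * nndist (f x) (f b))
    (A : Set Y) (hA : A.Nontrivial) :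
    ∃ k : ℕ, ∑' U, (meet f k A).indicator (cellMass f) U ≤
      64 * ((2 * (η 6 * Metric.ediam A)) ^ (33 / 20 : ℝ)) := by
  have : CompactSpace carpet := isCompact_iff_compactSpace.mp isCompact_carpet
  set B : Set carpet := f ⁻¹' A with hB
  obtain ⟨y₁, hy₁, y₂, hy₂, hne⟩ := hA
  have hx₁ : f.symm y₁ ∈ B := by simpa [hB] using hy₁
  have hx₂ : f.symm y₂ ∈ B := by simpa [hB] using hy₂
  have hbd : Bornology.IsBounded B := (isCompact_univ.isBounded).subset (Set.subset_univ B)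
  have hD2 : Metric.diam B ≤ 2 := by
    refine Metric.diam_le_of_forall_dist_le (by norm_num) fun x _ y _ => ?_
    rw [Subtype.dist_eq]
    exact dist_le_two (carpet_subset_zero x.2) (carpet_subset_zero y.2)
  have hD0 : 0 < Metric.diam B := by
    have h1 : dist (f.symm y₁) (f.symm y₂) ≤ Metric.diam B := Metric.dist_le_diam_of_mem hbd hx₁ hx₂
    have h2 : 0 < dist (f.symm y₁) (f.symm y₂) := by
      rw [dist_pos]
      exact fun h => hne (f.symm.injective h)
    linarith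
  set D := Metric.diam B with hD
  obtain ⟨k, hk1, hk2⟩ := exists_nat_pow_near_of_lt_one (show 0 < D / 3 by positivity)
    (show D / 3 ≤ 1 by linarith) (show (0 : ℝ) < 1 / 3 by norm_num) (by norm_num)
  have hk1' : 1 / 3 ^ k < D := by
    rw [pow_succ, one_div, inv_pow] at hk1
    rw [one_div]
    linarith
  have hk2' : D ≤ 3 / 3 ^ k := by
    rw [one_div, inv_pow] at hk2
    rw [div_eq_mul_inv]
    linarith
  obtain ⟨a, haB, b, hbB, hab⟩ : ∃ a ∈ B, ∃ b ∈ B, D / 2 < dist a b := by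
    by_contra hcon
    push Not at hcon
    have h3 : D ≤ D / 2 := Metric.diam_le_of_forall_dist_le (by positivity) hcon
    linarith
  refine ⟨k, ?_⟩
  have hsub : meet f k A ⊆ near k a.1 D := by
    rintro w ⟨hwk, x, hx, hxA⟩
    refine ⟨hwk, x, hx, ?_⟩
    have h1 : (⟨cell w x, cell_mem w hx⟩ : carpet) ∈ B := by
      rw [hB, Set.mem_preimage, ← ext_eq f (cell_mem w hx)]
      exact hxA
    have h2 : dist a (⟨cell w x, cell_mem w hx⟩ : carpet) ≤ Metric.diam B :=
      Metric.dist_le_diam_of_mem hbd haB h1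
    rw [Subtype.dist_eq] at h2
    exact h2
  obtain ⟨hf, hc⟩ := near_finite (k := k) (a := a.1) (R := D) hk2'
  refine tsum_indicator_le (hf.subset hsub) ((Set.ncard_le_ncard hsub hf).trans hc) _ _ ?_
  rintro w ⟨hwk, x, hx, hxA⟩
  have hxB : (⟨cell w x, cell_mem w hx⟩ : carpet) ∈ B := by
    rw [hB, Set.mem_preimage, ← ext_eq f (cell_mem w hx)]
    exact hxA
  have hax := Metric.dist_le_diam_of_mem hbd haB hxB
  have key : ∀ y : Plane, ∀ hy : y ∈ carpet,
      edist (f a) (f ⟨cell w y, cell_mem w hy⟩) ≤ η 6 * Metric.ediam A := by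
    intro y hy
    have h1 : dist a (⟨cell w y, cell_mem w hy⟩ : carpet) ≤ 6 * dist a b := by
      have h2 := dist_triangle a (⟨cell w x, cell_mem w hx⟩ : carpet) ⟨cell w y, cell_mem w hy⟩
      have h3 : dist (⟨cell w x, cell_mem w hx⟩ : carpet) ⟨cell w y, cell_mem w hy⟩ ≤
          2 / 3 ^ k := by
        rw [Subtype.dist_eq, ← hwk]
        exact dist_cell_le w hx hy
      have h4 : (2 : ℝ) / 3 ^ k = 2 * (1 / 3 ^ k) := by ring
      linarith
    have h5 : nndist a (⟨cell w y, cell_mem w hy⟩ : carpet) ≤ 6 * nndist a b := by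
      rw [← NNReal.coe_le_coe]
      push_cast
      exact h1
    have h6 := hη _ _ _ _ h5
    have h7 : edist (f a) (f b) ≤ Metric.ediam A := Metric.edist_le_ediam_of_mem haB hbB
    calc edist (f a) (f ⟨cell w y, cell_mem w hy⟩)
        = (nndist (f a) (f ⟨cell w y, cell_mem w hy⟩) : ℝ≥0∞) := edist_nndist _ _
      _ ≤ ((η 6 * nndist (f a) (f b) : ℝ≥0) : ℝ≥0∞) := by exact_mod_cast h6
      _ = η 6 * edist (f a) (f b) := by rw [ENNReal.coe_mul, edist_nndist (f a) (f b)]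
      _ ≤ η 6 * Metric.ediam A := by gcongr
  refine cellMass_le f w fun y hy z hz => ?_
  rw [ext_eq f (cell_mem w hy), ext_eq f (cell_mem w hz)]
  refine (edist_triangle _ (f a) _).trans ?_
  rw [two_mul, edist_comm]
  exact add_le_add (key y hy) (key z hz)

end Pool.Agent.Lib.Carpet
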