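import Mathlib
import Pool.Agent.Lib.Carpet.Cover

/-!
Every metric space quasisymmetrically homeomorphic to the carpet has Hausdorff dimension at
least `33 / 20`.
-/

namespace Pool.Agent.Lib.Carpet

open scoped ENNReal NNReal MeasureTheory

/-- Covers of a space of Hausdorff dimension less than `33 / 20`. -/
theorem exists_cover {Y : Type*} [MetricSpace Y] (h : dimH (Set.univ : Set Y) < (33 / 20 : ℝ≥0))
    (ε : ℝ≥0∞) (hε : 0 < ε) :
    ∃ t : ℕ → Set Y, (Set.univ ⊆ ⋃ n, t n) ∧
      ∑' n, (Metric.ediam (t n)) ^ (33 / 20 : ℝ) < ε := by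
  borelize Y
  have h0 : MeasureTheory.Measure.hausdorffMeasure ((33 / 20 : ℝ≥0) : ℝ) (Set.univ : Set Y) = 0 :=
    hausdorffMeasure_of_dimH_lt h
  rw [MeasureTheory.Measure.hausdorffMeasure_apply] at h0
  rw [ENNReal.iSup_eq_zero] at h0
  have h1 := h0 1
  rw [ENNReal.iSup_eq_zero] at h1
  have h2 := h1 zero_lt_one
  rw [← h2] at hε
  rw [iInf_lt_iff] at hε
  obtain ⟨t, ht⟩ := hε
  rw [iInf_lt_iff] at ht
  obtain ⟨ht1, ht⟩ := ht
  rw [iInf_lt_iff] at ht
  obtain ⟨_, ht⟩ := ht
  refine ⟨t, ht1, lt_of_le_of_lt (ENNReal.tsum_le_tsum fun n => ?_) ht⟩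
  by_cases hn : (t n).Nonempty
  · have e : ((33 / 20 : ℝ≥0) : ℝ) = 33 / 20 := by norm_num
    rw [iSup_pos hn, e]
  · rw [Set.not_nonempty_iff_eq_empty] at hn
    rw [hn, Metric.ediam_empty, ENNReal.zero_rpow_of_pos (by norm_num)]
    exact zero_le

/-- The mass of the part of a sequence of families of words below a word. -/
noncomputable def massBelow (r : List Digit → ℝ≥0∞) (T : ℕ → Set (List Digit))
    (w : List Digit) : ℝ≥0∞ :=
  ∑' n, ∑' U, (T n ∩ {U | w <:+ U}).indicator r U

theorem massBelow_sum (r : List Digit → ℝ≥0∞) (T : ℕ → Set (List Digit)) (w : List Digit) :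
    ∑ d : Digit, massBelow r T (d :: w) ≤ massBelow r T w := by
  unfold massBelow
  rw [← Summable.tsum_finsetSum fun _ _ => ENNReal.summable]
  refine ENNReal.tsum_le_tsum fun n => ?_
  rw [← Summable.tsum_finsetSum fun _ _ => ENNReal.summable]
  refine ENNReal.tsum_le_tsum fun U => ?_
  by_cases hU : ∃ d : Digit, (d :: w) <:+ U
  · obtain ⟨d, hd⟩ := hU
    have h1 : ∀ d' : Digit, d' ≠ d → ¬ (d' :: w) <:+ U := by
      intro d' hd' h
      have h2 := List.IsSuffix.eq_of_length (List.suffix_of_suffix_length_le h hd (by simp))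
        (by simp)
      simp only [List.cons.injEq] at h2
      exact hd' h2.1
    rw [Finset.sum_eq_single d]
    · refine Set.indicator_le_indicator_of_subset ?_ (fun _ => zero_le) U
      rintro V ⟨hV1, hV2⟩
      exact ⟨hV1, (List.suffix_cons d w).trans hV2⟩
    · intro d' _ hd'
      exact Set.indicator_of_notMem (fun h => h1 d' hd' h.2) r
    · intro h
      exact absurd (Finset.mem_univ d) h
  · rw [Finset.sum_eq_zero fun d _ => Set.indicator_of_notMem (fun h => hU ⟨d, h.2⟩) r]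
    exact zero_le

theorem massBelow_anti (r : List Digit → ℝ≥0∞) (T : ℕ → Set (List Digit)) (w : List Digit) :
    massBelow r T w ≤ massBelow r T [] := by
  refine ENNReal.tsum_le_tsum fun n => ENNReal.tsum_le_tsum fun U => ?_
  refine Set.indicator_le_indicator_of_subset ?_ (fun _ => zero_le) U
  rintro V ⟨hV1, _⟩
  exact ⟨hV1, List.nil_suffix⟩

theorem le_massBelow (r : List Digit → ℝ≥0∞) (T : ℕ → Set (List Digit)) (w : List Digit) (n : ℕ)
    (h : w ∈ T n) : r w ≤ massBelow r T w := by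
  have h1 : r w = (T n ∩ {U | w <:+ U}).indicator r w :=
    (Set.indicator_of_mem (s := T n ∩ {U | w <:+ U}) ⟨h, List.suffix_rfl⟩ r).symm
  calc r w = (T n ∩ {U | w <:+ U}).indicator r w := h1
    _ ≤ ∑' U, (T n ∩ {U | w <:+ U}).indicator r U := ENNReal.le_tsum w
    _ ≤ _ := ENNReal.le_tsum (f := fun n => ∑' U, (T n ∩ {U | w <:+ U}).indicator r U) n

/-- The quantitative statement: a lower bound on the total mass of any family of cells obtained
from a cover. -/
theorem lower_bound {Y : Type*} [MetricSpace Y] (f : carpet ≃ₜ Y) (c : ℝ)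
    (hc : ∀ y y' : Y, dist y y' < c → dist (f.symm y) (f.symm y') < 1)
    (t : ℕ → Set Y) (ht : Set.univ ⊆ ⋃ n, t n) (k : ℕ → ℕ) (M : ℝ) (hM : 0 ≤ M)
    (hsum : ∑' n, ∑' U, (meet f (k n) (t n)).indicator (cellMass f) U ≤ ENNReal.ofReal M) :
    c ≤ 5 / 4 * M ^ (20 / 33 : ℝ) := by
  set T : ℕ → Set (List Digit) := fun n => meet f (k n) (t n) with hT
  have hroot : massBelow (cellMass f) T [] ≤ ENNReal.ofReal M := by
    refine le_trans (le_of_eq ?_) hsum
    unfold massBelow
    have e : ∀ n, T n ∩ {U | [] <:+ U} = meet f (k n) (t n) := by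
      intro n
      ext U
      simp [hT]
    simp only [e]
  have hfin : ∀ w, massBelow (cellMass f) T w ≠ ⊤ := fun w =>
    ((massBelow_anti _ T w).trans hroot).trans_lt ENNReal.ofReal_lt_top |>.ne
  have h1 : c ≤ 5 / 4 * ((massBelow (cellMass f) T []).toReal) ^ (20 / 33 : ℝ) := by
    refine mass_lower (ext f) (⋃ n, T n) (fun w => (massBelow (cellMass f) T w).toReal)
      (fun w => ENNReal.toReal_nonneg) ?_ ?_ ?_ ?_
    · intro w
      rw [← ENNReal.toReal_sum fun d _ => hfin _]
      exact ENNReal.toReal_mono (hfin w) (massBelow_sum _ T w)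
    · intro w hw x hx y hy
      rw [Set.mem_iUnion] at hw
      obtain ⟨n, hn⟩ := hw
      have h2 : (edist (ext f (cell w x)) (ext f (cell w y))) ^ (33 / 20 : ℝ) ≤
          massBelow (cellMass f) T w := by
        refine le_trans ?_ (le_massBelow _ T w n hn)
        unfold cellMass
        refine ENNReal.rpow_le_rpow ?_ (by norm_num)
        exact Metric.edist_le_ediam_of_mem ⟨_, ⟨x, hx, rfl⟩, rfl⟩ ⟨_, ⟨y, hy, rfl⟩, rfl⟩
      have h3 := ENNReal.toReal_mono (hfin w) h2
      rw [← ENNReal.toReal_rpow, ← dist_edist] at h3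
      have h4 := Real.rpow_le_rpow (Real.rpow_nonneg dist_nonneg _) h3
        (show (0 : ℝ) ≤ 20 / 33 by norm_num)
      rw [← Real.rpow_mul dist_nonneg] at h4
      have h5 : (33 / 20 : ℝ) * (20 / 33) = 1 := by norm_num
      rw [h5, Real.rpow_one] at h4
      exact h4
    · refine barred_of_cover _ fun x hx => ?_
      have h2 := ht (Set.mem_univ (ext f x))
      rw [Set.mem_iUnion] at h2
      obtain ⟨n, hn⟩ := h2
      refine ⟨k n, fun w hw hxw => ?_⟩
      obtain ⟨x', hx', rfl⟩ := hxw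
      exact Set.mem_iUnion.mpr ⟨n, hw, x', hx', hn⟩
    · intro s hs
      by_contra hcon
      push Not at hcon
      rw [ext_eq f (inZ_mem 0 hs), ext_eq f (outZ_mem 0 hs)] at hcon
      have h2 := hc _ _ hcon
      rw [Homeomorph.symm_apply_apply, Homeomorph.symm_apply_apply, Subtype.dist_eq] at h2
      have h3 := abs_coord_le (pt (inZ 0) s) (pt (outZ 0) s) 0
      have h4 : |pt (inZ 0) s 0 - pt (outZ 0) s 0| = 1 := by
        simp [pt, inZ, outZ]
      rw [h4] at h3
      simp only at h2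
      linarith
  refine h1.trans ?_
  have h2 : (massBelow (cellMass f) T []).toReal ≤ M := by
    have h3 := ENNReal.toReal_mono ENNReal.ofReal_ne_top hroot
    rwa [ENNReal.toReal_ofReal hM] at h3
  have h4 : (massBelow (cellMass f) T []).toReal ^ (20 / 33 : ℝ) ≤ M ^ (20 / 33 : ℝ) :=
    Real.rpow_le_rpow ENNReal.toReal_nonneg h2 (by norm_num)
  linarith

theorem dimH_ge {Y : Type*} [MetricSpace Y] (f : carpet ≃ₜ Y) (hf : IsQuasisymmetric f) :
    ((33 / 20 : ℝ≥0) : ℝ≥0∞) ≤ dimH (Set.univ : Set Y) := by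
  by_contra hcon
  rw [not_le] at hcon
  obtain ⟨η, hη⟩ := hf
  have : CompactSpace carpet := isCompact_iff_compactSpace.mp isCompact_carpet
  have : CompactSpace Y := f.compactSpace
  have huc : UniformContinuous f.symm :=
    CompactSpace.uniformContinuous_of_continuous f.symm.continuous
  rw [Metric.uniformContinuous_iff] at huc
  obtain ⟨c, hc0, hc⟩ := huc 1 one_pos
  -- the constant
  set K : ℝ := 64 * (2 * ((η 6 : ℝ≥0) : ℝ)) ^ (33 / 20 : ℝ) with hK
  have hK0 : 0 ≤ K := by positivity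
  have main : ∀ ε : ℝ, 0 < ε → c ≤ 5 / 4 * ((K + 1) * ε) ^ (20 / 33 : ℝ) := by
    intro ε hε
    obtain ⟨t, ht1, ht2⟩ := exists_cover hcon (ENNReal.ofReal ε) (ENNReal.ofReal_pos.mpr hε)
    obtain ⟨e, he1, he2⟩ := ENNReal.exists_pos_sum_of_countable
      (ENNReal.ofReal_pos.mpr hε).ne' ℕ
    have hk : ∀ n, ∃ k : ℕ, ∑' U, (meet f k (t n)).indicator (cellMass f) U ≤
        ENNReal.ofReal K * (Metric.ediam (t n)) ^ (33 / 20 : ℝ) + e n := by
      intro n
      rcases Set.subsingleton_or_nontrivial (t n) with h | h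
      · obtain ⟨k, hk⟩ := level_subsingleton f (t n) h (e n) (by exact_mod_cast he1 n)
        exact ⟨k, hk.trans le_add_self⟩
      · obtain ⟨k, hk⟩ := level_nontrivial f η hη (t n) h
        refine ⟨k, (hk.trans (le_of_eq ?_)).trans le_self_add⟩
        rw [← mul_assoc 2, ENNReal.mul_rpow_of_nonneg _ _ (by norm_num), ← mul_assoc, hK]
        congr 1
        rw [ENNReal.ofReal_mul (by norm_num), ← ENNReal.ofReal_rpow_of_nonneg (by positivity)
          (by norm_num), ENNReal.ofReal_mul (by norm_num), ENNReal.ofReal_coe_nnreal]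
        norm_num
    choose k hk using hk
    refine lower_bound f c (fun y y' h => hc h) t ht1 k ((K + 1) * ε) (by positivity) ?_
    calc ∑' n, ∑' U, (meet f (k n) (t n)).indicator (cellMass f) U
        ≤ ∑' n, (ENNReal.ofReal K * (Metric.ediam (t n)) ^ (33 / 20 : ℝ) + e n) :=
          ENNReal.tsum_le_tsum hk
      _ = ENNReal.ofReal K * ∑' n, (Metric.ediam (t n)) ^ (33 / 20 : ℝ) + ∑' n, (e n : ℝ≥0∞) := by
          rw [ENNReal.tsum_add, ENNReal.tsum_mul_left]
      _ ≤ ENNReal.ofReal K * ENNReal.ofReal ε + ENNReal.ofReal ε := by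
          gcongr
      _ = ENNReal.ofReal ((K + 1) * ε) := by
          rw [← ENNReal.ofReal_mul hK0, ← ENNReal.ofReal_add (by positivity) hε.le]
          congr 1
          ring
  have hc1 : 0 < (4 / 5 * c) ^ (33 / 20 : ℝ) := by positivity
  have h1 := main ((4 / 5 * c) ^ (33 / 20 : ℝ) / (2 * (K + 1))) (by positivity)
  have h2 : (K + 1) * ((4 / 5 * c) ^ (33 / 20 : ℝ) / (2 * (K + 1))) =
      (4 / 5 * c) ^ (33 / 20 : ℝ) / 2 := by
    have : K + 1 ≠ 0 := by positivity
    field_simp
  rw [h2] at h1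
  have h3 : ((4 / 5 * c) ^ (33 / 20 : ℝ) / 2) ^ (20 / 33 : ℝ) <
      ((4 / 5 * c) ^ (33 / 20 : ℝ)) ^ (20 / 33 : ℝ) :=
    Real.rpow_lt_rpow (by positivity) (by linarith) (by norm_num)
  rw [← Real.rpow_mul (by positivity)] at h3
  have h4 : (33 / 20 : ℝ) * (20 / 33) = 1 := by norm_num
  rw [h4, Real.rpow_one] at h3
  linarith

theorem log_bound : 1 + Real.log 2 / Real.log 3 < 33 / 20 := by
  have h3 : 0 < Real.log 3 := Real.log_pos (by norm_num)
  have h : Real.log 2 / Real.log 3 < 13 / 20 := by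
    rw [div_lt_iff₀ h3]
    have h1 : (20 : ℝ) * Real.log 2 = Real.log (2 ^ 20) := by
      rw [Real.log_pow]
      norm_num
    have h2 : (13 : ℝ) * Real.log 3 = Real.log (3 ^ 13) := by
      rw [Real.log_pow]
      norm_num
    have h4 : Real.log ((2 : ℝ) ^ 20) < Real.log (3 ^ 13) :=
      Real.log_lt_log (by positivity) (by norm_num)
    linarith
  linarith

end Pool.Agent.Lib.Carpet
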